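import Pool.Agent.Y386.IF.Three

/-!
# Three isomorphic factors: the numbers of parts for which divisibility suffices

The Divisibility Condition is sufficient for `(r, 3)` for every `r ≥ 2` except `r = 3`.

The definitions are those of the earlier file `FourPartsThreeFactors` of this repository:
`K n` is the complete multipartite graph with parts `Fin (n i)`, `IsIsoFactorisation G t F` says
that the edge sets of the `t` spanning subgraphs `F k` partition the edge set of `G` and that the
`F k` are pairwise isomorphic, `Divisible G t` says that such a factorisation exists, and
`ConditionSufficient r t` says that `K n` is divisible by `t` for all `n : Fin r → ℕ` with positive
entries for which `t` divides the number of edges of `K n`.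

Proof. A set of parts is called good if the graph they span has a factorisation such that the
isomorphisms also permute the three classes of a partition of its vertices; then it can be joined
to every graph which is divisible by three. Good are: one part of size divisible by three, three
parts of equal size, every three parts of sizes `2` modulo `3`, and three parts of sizes `1` modulo
`3` of which two are larger than one. The last two statements follow from six finite factorisations
which are extended by blocks of three vertices. What remains are the graphs with at most four parts
(the case of four parts is the earlier result) and the graphs `K(1, 1, 1, 1, 1, n)` and
`K(1, 1, n, a, b, c)` with `n = 1` and `a = b = c = 2` modulo `3`, which come from two more finite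
factorisations. The graph `K(1, 1, 7)` has 15 edges and is not divisible by three.
-/

namespace Pool.Agent.Results.MP_369736_co.ThreeFactorsAllParts

open Pool.Agent.Results.MP_369736_co.FourPartsThreeFactors (ConditionSufficient)

/-- **Main theorem.** For `r ≥ 2` the Divisibility Condition is sufficient for `(r, 3)` if and only
if `r ≠ 3`. -/
theorem result : ∀ r : ℕ, 2 ≤ r → (ConditionSufficient r 3 ↔ r ≠ 3) := by
  intro r hr
  constructor
  · rintro h rfl
    exact Pool.Agent.Y386.IF.not_three h
  · intro h
    by_cases h4 : 4 ≤ r
    · exact Pool.Agent.Y386.IF.sufficient r h4
    · obtain rfl : r = 2 := by omega
      exact Pool.Agent.Y386.IF.sufficient_two

end Pool.Agent.Results.MP_369736_co.ThreeFactorsAllParts
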